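import Pool.Agent.Q230.DP.Cor

/-!
# Down-posets can be recognised in polynomial time

A down-function `f` is determined by its image `D`, a down-set that meets every principal down-set
in a principal down-set (`f(e)` is the greatest element of `D` below `e`). If a finite poset is a
down-poset then any two elements with a common upper bound have a meet, so that all principal
down-sets are lattices, and the admissible sets `D` are the down-sets which contain the minimal
elements and are closed under the joins formed in the principal down-sets. So there is a least one
that contains a given element `c`; it is computed by iteration, and the poset is a down-poset iff
for all `c ≤ d` the element `c` is the greatest element of this set below `d`.
-/

set_option autoImplicit false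

namespace Pool.Agent.Results.MP_dd7d0c_lc.RecognitionInP

open Pool.Agent.NPC Pool.Agent.Q230.DP

/-- **Main theorem.** It can be decided in polynomial time whether a finite poset, given by the
Boolean matrix of its order relation, is a down-poset. -/
theorem result : InPP DownPosets := downPosets_inP

end Pool.Agent.Results.MP_dd7d0c_lc.RecognitionInP
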